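import Pool.Agent.TH936.ST.Patch2

/-!
# Frobenius classes over a number field and over many of its finite extensions

`A` is an abelian variety over a number field `K`, `X` the space of conjugacy classes of `ST(A)` and
`x_v ∈ X` the class of the prime `v` of `K` (any point of `X` at the finitely many primes of bad
reduction).  For a finite extension `F` of `K` let `y_w ∈ X` be the image of the class of the prime `w`
of `F` for `A_F`; for all but finitely many `w` of residue degree one over the prime `v` of `K` below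
`w`, it is `x_v`.  If `ST(A_F) = ST(A)`, then the Sato-Tate conjecture for `A_F` says that the `y_w` are
equidistributed for the image of the Haar measure.  The theorem uses nothing else about `x` and `y`.
-/

set_option autoImplicit false

namespace Pool.Agent.Results.MP_6dc561_nt.ManyExtensions

open NumberField IsDedekindDomain Filter Topology MeasureTheory
open scoped TensorProduct

/-- The average of `φ` over the primes of `F` of norm at most `N`. -/
noncomputable def avg {F : Type} [Field F] [NumberField F] (φ : HeightOneSpectrum (𝓞 F) → ℝ)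
    (N : ℕ) : ℝ :=
  (∑ᶠ v : {v : HeightOneSpectrum (𝓞 F) // Ideal.absNorm v.asIdeal ≤ N}, φ v.1) /
    (Nat.card {v : HeightOneSpectrum (𝓞 F) // Ideal.absNorm v.asIdeal ≤ N} : ℝ)

/-- `y w = x v` for all primes `w ∉ S` of `F` of residue degree one over the prime `v` of `K` below
`w`. -/
def BaseChangeOff {K F : Type} [Field K] [NumberField K] [Field F] [NumberField F] [Algebra K F]
    {X : Type} (S : Finset (HeightOneSpectrum (𝓞 F))) (x : HeightOneSpectrum (𝓞 K) → X)
    (y : HeightOneSpectrum (𝓞 F) → X) : Prop :=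
  ∀ w, w ∉ S → ∀ v : HeightOneSpectrum (𝓞 K),
    w.asIdeal.comap (algebraMap (𝓞 K) (𝓞 F)) = v.asIdeal →
    Ideal.absNorm w.asIdeal = Ideal.absNorm v.asIdeal → y w = x v

/-- `y w = x v` for all but finitely many primes `w` of `F` of residue degree one over the prime `v` of
`K` below `w`. -/
def BaseChange {K F : Type} [Field K] [NumberField K] [Field F] [NumberField F] [Algebra K F]
    {X : Type} (x : HeightOneSpectrum (𝓞 K) → X) (y : HeightOneSpectrum (𝓞 F) → X) : Prop :=
  ∃ S : Finset (HeightOneSpectrum (𝓞 F)), BaseChangeOff S x y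

/-- The number of fields whose product is `F ⊗_K F'`.  It is `1` if and only if `F ⊗_K F'` is a field;
for `F = F'` it is at most `[F : K]`, and equal to `2` if the Galois group of the normal closure of
`F / K` acts doubly transitively on the embeddings of `F`. -/
noncomputable def numFields (K F F' : Type) [Field K] [Field F] [Field F'] [Algebra K F]
    [Algebra K F'] : ℕ := Nat.card (MaximalSpectrum (F ⊗[K] F'))

/-- The points `y_w` are equidistributed for `μ`. -/
def Equidistributed {F : Type} [Field F] [NumberField F] {X : Type} [TopologicalSpace X]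
    [MeasurableSpace X] (y : HeightOneSpectrum (𝓞 F) → X) (μ : Measure X) : Prop :=
  ∀ f : X → ℝ, Continuous f → Tendsto (avg fun w => f (y w)) atTop (𝓝 (∫ t, f t ∂μ))

/-- The test functions: `1`-Lipschitz with values in `[-1, 1]`. -/
def IsTest {X : Type} [MetricSpace X] (f : X → ℝ) : Prop := LipschitzWith 1 f ∧ ∀ t, |f t| ≤ 1

/-- From `K` to the extensions, for the compact metric space `X`, `δ > 0` and `B`: if the `F_i ⊗ F_j` are fields for
`i ≠ j` and the `F_i ⊗ F_i` are products of at most `b + 1` fields, then at every large `N` the averages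
over `F_i` and over `K` of all test functions differ by at most `δ`, for all but at most `B b` of the
indices `i`; and if the `x_v` are equidistributed for `μ`, then at every large `N` the averages of all
test functions over `F_i` differ from their integrals by at most `δ`, for all but at most `B b` of the
`i`. -/
def FewExceptions (X : Type) [MetricSpace X] [CompactSpace X] [MeasurableSpace X] [BorelSpace X]
    (δ : ℝ) (B : ℕ) : Prop :=
  ∀ (K : Type) [Field K] [NumberField K] (m b : ℕ) (F : Fin m → Type) [∀ i, Field (F i)]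
    [∀ i, NumberField (F i)] [∀ i, Algebra K (F i)]
    (S : ∀ i, Finset (HeightOneSpectrum (𝓞 (F i)))),
    (∀ i j, i ≠ j → numFields K (F i) (F j) = 1) → (∀ i, numFields K (F i) (F i) ≤ b + 1) →
    (∀ᶠ N : ℕ in atTop, ∀ (x : HeightOneSpectrum (𝓞 K) → X)
      (y : ∀ i, HeightOneSpectrum (𝓞 (F i)) → X), (∀ i, BaseChangeOff (S i) x (y i)) →
      ∃ E : Finset (Fin m), E.card ≤ B * b ∧ ∀ i, i ∉ E → ∀ f : X → ℝ, IsTest f →
        |avg (fun w => f (y i w)) N - avg (fun v => f (x v)) N| ≤ δ) ∧
    ∀ (x : HeightOneSpectrum (𝓞 K) → X) (μ : Measure X) [IsProbabilityMeasure μ],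
      Equidistributed x μ → ∀ᶠ N : ℕ in atTop,
      ∀ y : ∀ i, HeightOneSpectrum (𝓞 (F i)) → X, (∀ i, BaseChangeOff (S i) x (y i)) →
      ∃ E : Finset (Fin m), E.card ≤ B * b ∧ ∀ i, i ∉ E → ∀ f : X → ℝ, IsTest f →
        |avg (fun w => f (y i w)) N - ∫ t, f t ∂μ| ≤ δ

/-- From the extensions to `K`.  (a) If `∑ c_i = 1`, then the average over `K` of every function `f` with
`|f| ≤ 1` differs from the combination `∑ c_i (average over F_i)` by at most
`√(∑ c_i c_j (numFields (F_i, F_j) - 1) + η)`, for large `N`.  (b) If the points over all `F_i` of a family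
are equidistributed for `μ` and the average of `numFields (F_i, F_j) - 1` over `i, j ∈ T` is arbitrarily
small for suitable finite `T`, then the points over `K` are equidistributed for `μ`.  (c) This is the case
for infinite families with `numFields (F_i, F_j) = 1` for `i ≠ j` and `numFields (F_i, F_i)` bounded. -/
def Descent (K : Type) [Field K] [NumberField K] (X : Type) [TopologicalSpace X] [CompactSpace X]
    [MeasurableSpace X] : Prop :=
  ∀ (x : HeightOneSpectrum (𝓞 K) → X) (ι : Type) (F : ι → Type) [∀ i, Field (F i)]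
    [∀ i, NumberField (F i)] [∀ i, Algebra K (F i)] (y : ∀ i, HeightOneSpectrum (𝓞 (F i)) → X),
    (∀ i, BaseChange x (y i)) →
    (∀ (T : Finset ι) (c : ι → ℝ), ∑ i ∈ T, c i = 1 → ∀ f : X → ℝ, (∀ t, |f t| ≤ 1) →
      ∀ η : ℝ, 0 < η → ∀ᶠ N : ℕ in atTop,
      (avg (fun v => f (x v)) N - ∑ i ∈ T, c i * avg (fun w => f (y i w)) N) ^ 2 ≤
        (∑ i ∈ T, ∑ j ∈ T, c i * c j * ((numFields K (F i) (F j) : ℝ) - 1)) + η) ∧
    ∀ μ : Measure X, (∀ i, Equidistributed (y i) μ) →
    ((∀ ε : ℝ, 0 < ε → ∃ T : Finset ι, T.Nonempty ∧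
        ∑ i ∈ T, ∑ j ∈ T, ((numFields K (F i) (F j) : ℝ) - 1) ≤ ε * (T.card : ℝ) ^ 2) →
      Equidistributed x μ) ∧
    (∀ b : ℕ, Infinite ι → (∀ i j, i ≠ j → numFields K (F i) (F j) = 1) →
      (∀ i, numFields K (F i) (F i) ≤ b) → Equidistributed x μ)

/-- The inequality from which everything follows: for finitely many finite extensions `F_i` of `K`, all
large `N`, all points `x_v`, `y_{i,w}`, all `f` with `|f| ≤ 1` and all real `c_i`. -/
def FormInequality (K : Type) [Field K] [NumberField K] : Prop :=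
  ∀ (m : ℕ) (F : Fin m → Type) [∀ i, Field (F i)] [∀ i, NumberField (F i)] [∀ i, Algebra K (F i)]
    (S : ∀ i, Finset (HeightOneSpectrum (𝓞 (F i)))) (η : ℝ), 0 < η →
    ∀ᶠ N : ℕ in atTop, ∀ (X : Type) (x : HeightOneSpectrum (𝓞 K) → X)
      (y : ∀ i, HeightOneSpectrum (𝓞 (F i)) → X), (∀ i, BaseChangeOff (S i) x (y i)) →
      ∀ f : X → ℝ, (∀ t, |f t| ≤ 1) → ∀ c : Fin m → ℝ,
      (∑ i, c i * (avg (fun w => f (y i w)) N - avg (fun v => f (x v)) N)) ^ 2 ≤
        (∑ i, ∑ j, c i * c j * ((numFields K (F i) (F j) : ℝ) - 1)) + η * (∑ i, |c i|) ^ 2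

theorem form (K : Type) [Field K] [NumberField K] : FormInequality K := by
  intro m F _ _ _ S η hη
  have h := Pool.Agent.TH936.ST.patch_unif (K := K) F (Finset.univ : Finset (Fin m)) S hη
  filter_upwards [h] with N hN X x y hxy f hf c
  exact hN (fun v => f (x v)) (fun i w => f (y i w)) (fun v => hf _) (fun i _ w => hf _)
    (fun i _ w hw v h1 h2 => congrArg f (hxy i w hw v h1 h2)) c

/-- Bessel's inequality -/
theorem bessel (K : Type) [Field K] [NumberField K] (m b : ℕ) (F : Fin m → Type)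
    [∀ i, Field (F i)] [∀ i, NumberField (F i)] [∀ i, Algebra K (F i)]
    (S : ∀ i, Finset (HeightOneSpectrum (𝓞 (F i))))
    (h1 : ∀ i j, i ≠ j → numFields K (F i) (F j) = 1) (h2 : ∀ i, numFields K (F i) (F i) ≤ b + 1)
    {η : ℝ} (hη : 0 < η) :
    ∀ᶠ N : ℕ in atTop, ∀ (X : Type) (x : HeightOneSpectrum (𝓞 K) → X)
      (y : ∀ i, HeightOneSpectrum (𝓞 (F i)) → X), (∀ i, BaseChangeOff (S i) x (y i)) →
      ∀ f : X → ℝ, (∀ t, |f t| ≤ 1) →
      ∑ i, (avg (fun w => f (y i w)) N - avg (fun v => f (x v)) N) ^ 2 ≤ b + η := by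
  have hm : (0 : ℝ) < (m : ℝ) + 1 := by positivity
  filter_upwards [form K m F S (η / (m + 1)) (by positivity)] with N hN X x y hxy f hf
  set D : Fin m → ℝ := fun i => avg (fun w => f (y i w)) N - avg (fun v => f (x v)) N with hD
  have h3 := hN X x y hxy f hf D
  set s : ℝ := ∑ i, D i ^ 2 with hs
  have hs0 : 0 ≤ s := Finset.sum_nonneg fun i _ => sq_nonneg _
  have e1 : ∑ i, D i * D i = s := Finset.sum_congr rfl fun i _ => by ring
  have e2 : (∑ i, ∑ j, D i * D j * ((numFields K (F i) (F j) : ℝ) - 1)) ≤ b * s := by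
    rw [hs, Finset.mul_sum]
    refine Finset.sum_le_sum fun i _ => ?_
    rw [Finset.sum_eq_single i]
    · have h4 : (numFields K (F i) (F i) : ℝ) ≤ b + 1 := by exact_mod_cast h2 i
      have h5 : D i * D i = D i ^ 2 := by ring
      rw [h5, mul_comm]
      exact mul_le_mul_of_nonneg_right (by linarith) (sq_nonneg _)
    · intro j _ hj
      rw [h1 i j (Ne.symm hj)]
      simp
    · intro h
      exact absurd (Finset.mem_univ i) h
  have e3 : (∑ i, |D i|) ^ 2 ≤ m * s := by
    have := sq_sum_le_card_mul_sum_sq (s := (Finset.univ : Finset (Fin m))) (f := fun i => |D i|)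
    simpa only [sq_abs, Finset.card_univ, Fintype.card_fin] using this
  have e4 : η / (m + 1) * (∑ i, |D i|) ^ 2 ≤ η * s := by
    calc η / (m + 1) * (∑ i, |D i|) ^ 2 ≤ η / (m + 1) * (m * s) :=
          mul_le_mul_of_nonneg_left e3 (by positivity)
      _ ≤ η / (m + 1) * ((m + 1) * s) := by
          refine mul_le_mul_of_nonneg_left ?_ (by positivity)
          nlinarith
      _ = η * s := by field_simp
  have h3' : (∑ i, D i * D i) ^ 2 ≤
      (∑ i, ∑ j, D i * D j * ((numFields K (F i) (F j) : ℝ) - 1)) +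
        η / (m + 1) * (∑ i, |D i|) ^ 2 := h3
  rw [e1] at h3'
  have h6 : s * s ≤ (b + η) * s := by nlinarith
  rcases hs0.eq_or_lt with h7 | h7
  · rw [← h7]
    positivity
  · exact le_of_mul_le_mul_right h6 h7

theorem avg_abs_sub {F : Type} [Field F] [NumberField F] {φ ψ : HeightOneSpectrum (𝓞 F) → ℝ}
    {ε : ℝ} (h : ∀ v, |φ v - ψ v| ≤ ε) (hε : 0 ≤ ε) (N : ℕ) : |avg φ N - avg ψ N| ≤ ε := by
  obtain ⟨t, _, _, hmean⟩ := Pool.Agent.W529.ST.mean_def (F := F) φ N
  have h1 : avg φ N = (∑ v ∈ t, φ v) / (t.card : ℝ) := hmean φ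
  have h2 : avg ψ N = (∑ v ∈ t, ψ v) / (t.card : ℝ) := hmean ψ
  rw [h1, h2, ← sub_div, ← Finset.sum_sub_distrib, abs_div,
    abs_of_nonneg (Nat.cast_nonneg _ : (0 : ℝ) ≤ (t.card : ℝ))]
  refine div_le_of_le_mul₀ (Nat.cast_nonneg _) hε ?_
  refine (Finset.abs_sum_le_sum_abs _ _).trans ?_
  refine (Finset.sum_le_sum fun v _ => h v).trans ?_
  rw [Finset.sum_const, nsmul_eq_mul, mul_comm]

theorem few (X : Type) [MetricSpace X] [CompactSpace X] [MeasurableSpace X] [BorelSpace X]
    {δ : ℝ} (hδ : 0 < δ) : ∃ B : ℕ, FewExceptions X δ B := by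
  classical
  obtain ⟨s, h, hh, hnet⟩ := Pool.Agent.W529.ST.exists_net X (ε := δ / 8) (by positivity)
  refine ⟨s * (⌈16 / δ ^ 2⌉₊ + 1), ?_⟩
  intro K _ _ m b F _ _ _ S h1 h2
  have hlip : ∀ f : X → ℝ, IsTest f → Continuous f := fun f hf => hf.1.continuous
  -- the main estimate at the scale `N`, with the exceptions for the functions of the net
  have key : ∀ᶠ N : ℕ in atTop, ∀ (x : HeightOneSpectrum (𝓞 K) → X)
      (y : ∀ i, HeightOneSpectrum (𝓞 (F i)) → X), (∀ i, BaseChangeOff (S i) x (y i)) →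
      ∃ E : Finset (Fin m), E.card ≤ s * (⌈16 / δ ^ 2⌉₊ + 1) * b ∧ ∀ i, i ∉ E → ∀ f : X → ℝ,
        IsTest f → |avg (fun w => f (y i w)) N - avg (fun v => f (x v)) N| ≤ δ / 2 := by
    filter_upwards [bessel K m b F S h1 h2 (η := δ ^ 2 / 32) (by positivity)] with N hN x y hxy
    set D : Fin s → Fin m → ℝ := fun k i =>
      avg (fun w => h k (y i w)) N - avg (fun v => h k (x v)) N with hD
    set Ek : Fin s → Finset (Fin m) := fun k => Finset.univ.filter fun i => δ / 4 < |D k i| with hEk
    have hcard : ∀ k, (Ek k).card ≤ (⌈16 / δ ^ 2⌉₊ + 1) * b := by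
      intro k
      have h3 := hN X x y hxy (h k) (hh k).2
      have h4 : ((Ek k).card : ℝ) * (δ / 4) ^ 2 ≤ ∑ i, D k i ^ 2 := by
        calc ((Ek k).card : ℝ) * (δ / 4) ^ 2 = ∑ i ∈ Ek k, (δ / 4) ^ 2 := by
              rw [Finset.sum_const, nsmul_eq_mul]
          _ ≤ ∑ i ∈ Ek k, D k i ^ 2 := by
              refine Finset.sum_le_sum fun i hi => ?_
              have := (Finset.mem_filter.1 hi).2
              rw [← sq_abs (D k i)]
              exact pow_le_pow_left₀ (by positivity) this.le 2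
          _ ≤ ∑ i, D k i ^ 2 := Finset.sum_le_sum_of_subset_of_nonneg (Finset.subset_univ _)
              fun i _ _ => sq_nonneg _
      have h5 : ((Ek k).card : ℝ) * (δ / 4) ^ 2 ≤ b + δ ^ 2 / 32 := h4.trans h3
      have h6 : ((Ek k).card : ℝ) ≤ 16 / δ ^ 2 * b + 1 / 2 := by
        have : ((Ek k).card : ℝ) ≤ (b + δ ^ 2 / 32) / (δ / 4) ^ 2 := by
          rw [le_div_iff₀ (by positivity)]
          exact h5
        refine this.trans (le_of_eq ?_)
        field_simp
        ring
      rcases Nat.eq_zero_or_pos b with h7 | h7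
      · subst h7
        rw [mul_zero]
        rw [Nat.cast_zero, mul_zero, zero_add] at h6
        by_contra h8
        have h9 : 1 ≤ (Ek k).card := by omega
        have h10 : (1 : ℝ) ≤ (Ek k).card := by exact_mod_cast h9
        linarith
      · have h8 : (1 : ℝ) ≤ b := by exact_mod_cast h7
        have h9 : 16 / δ ^ 2 ≤ (⌈16 / δ ^ 2⌉₊ : ℝ) := Nat.le_ceil _
        have h10 : ((Ek k).card : ℝ) ≤ (((⌈16 / δ ^ 2⌉₊ + 1) * b : ℕ) : ℝ) := by
          push_cast
          nlinarith
        exact_mod_cast h10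
    refine ⟨Finset.univ.biUnion Ek, ?_, ?_⟩
    · refine Finset.card_biUnion_le.trans ?_
      refine (Finset.sum_le_sum fun k _ => hcard k).trans ?_
      rw [Finset.sum_const, Finset.card_univ, Fintype.card_fin, smul_eq_mul, mul_assoc]
    · intro i hi f hf
      obtain ⟨k, hk⟩ := hnet f hf
      have h3 : |D k i| ≤ δ / 4 := by
        by_contra hc
        apply hi
        rw [Finset.mem_biUnion]
        exact ⟨k, Finset.mem_univ _, Finset.mem_filter.2 ⟨Finset.mem_univ _, not_le.1 hc⟩⟩
      have h4 : |avg (fun w => f (y i w)) N - avg (fun w => h k (y i w)) N| ≤ δ / 8 :=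
        avg_abs_sub (fun w => hk _) (by positivity) N
      have h5 : |avg (fun v => f (x v)) N - avg (fun v => h k (x v)) N| ≤ δ / 8 :=
        avg_abs_sub (fun w => hk _) (by positivity) N
      rw [hD] at h3
      rw [abs_le] at h3 h4 h5 ⊢
      constructor <;> linarith [h3.1, h3.2, h4.1, h4.2, h5.1, h5.2]
  refine ⟨?_, ?_⟩
  · filter_upwards [key] with N hN x y hxy
    obtain ⟨E, hE, hE'⟩ := hN x y hxy
    exact ⟨E, hE, fun i hi f hf => (hE' i hi f hf).trans (by linarith)⟩
  · intro x μ _ hx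
    have h3 : ∀ᶠ N : ℕ in atTop, ∀ k ∈ (Finset.univ : Finset (Fin s)),
        |avg (fun v => h k (x v)) N - ∫ t, h k t ∂μ| < δ / 8 := by
      rw [Filter.eventually_all_finset]
      intro k _
      have h4 := hx (h k) (hlip _ (hh k))
      rw [Metric.tendsto_nhds] at h4
      filter_upwards [h4 (δ / 8) (by positivity)] with N hN
      rwa [Real.dist_eq] at hN
    filter_upwards [key, h3] with N hN hN3 y hxy
    obtain ⟨E, hE, hE'⟩ := hN x y hxy
    refine ⟨E, hE, fun i hi f hf => ?_⟩
    obtain ⟨k, hk⟩ := hnet f hf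
    have h4 := hE' i hi f hf
    have h5 : |avg (fun v => f (x v)) N - avg (fun v => h k (x v)) N| ≤ δ / 8 :=
      avg_abs_sub (fun w => hk _) (by positivity) N
    have h6 := hN3 k (Finset.mem_univ _)
    have h7 : |∫ t, h k t ∂μ - ∫ t, f t ∂μ| ≤ δ / 8 := by
      have hi1 : Integrable (h k) μ :=
        (BoundedContinuousFunction.mkOfCompact ⟨h k, hlip _ (hh k)⟩).integrable μ
      have hi2 : Integrable f μ :=
        (BoundedContinuousFunction.mkOfCompact ⟨f, hlip _ hf⟩).integrable μ
      rw [← integral_sub hi1 hi2]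
      have h8 := norm_integral_le_of_norm_le_const (μ := μ) (f := fun t => h k t - f t)
        (C := δ / 8) (Eventually.of_forall fun t => by
          rw [Real.norm_eq_abs, abs_sub_comm]
          exact hk t)
      rw [Real.norm_eq_abs] at h8
      have h9 : μ.real Set.univ = 1 := by simp
      rw [h9, mul_one] at h8
      exact h8
    rw [abs_le] at h4 h5 h7 ⊢
    rw [abs_lt] at h6
    constructor <;> linarith [h4.1, h4.2, h5.1, h5.2, h6.1, h6.2, h7.1, h7.2]

theorem descent (K : Type) [Field K] [NumberField K] (X : Type) [TopologicalSpace X]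
    [CompactSpace X] [MeasurableSpace X] : Descent K X := by
  classical
  intro x ι F _ _ _ y hxy
  choose S hS using hxy
  have hA : ∀ (T : Finset ι) (c : ι → ℝ), ∑ i ∈ T, c i = 1 → ∀ f : X → ℝ, (∀ t, |f t| ≤ 1) →
      ∀ η : ℝ, 0 < η → ∀ᶠ N : ℕ in atTop,
      (avg (fun v => f (x v)) N - ∑ i ∈ T, c i * avg (fun w => f (y i w)) N) ^ 2 ≤
        (∑ i ∈ T, ∑ j ∈ T, c i * c j * ((numFields K (F i) (F j) : ℝ) - 1)) + η := by
    intro T c hc f hf1 η hη
    set C : ℝ := ∑ i ∈ T, |c i| with hC
    have h1 := Pool.Agent.TH936.ST.patch_unif (K := K) F T S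
      (η := η / (C ^ 2 + 1)) (by positivity)
    filter_upwards [h1] with N hN
    have h4 := hN (fun v => f (x v)) (fun i w => f (y i w)) (fun v => hf1 _) (fun i _ w => hf1 _)
      (fun i _ w hw v e1 e2 => congrArg f (hS i w hw v e1 e2)) c
    have e1 : ∑ i ∈ T, c i * (Pool.Agent.W529.ST.mean (F i) (fun w => f (y i w)) N -
        Pool.Agent.W529.ST.mean K (fun v => f (x v)) N) =
        (∑ i ∈ T, c i * avg (fun w => f (y i w)) N) - avg (fun v => f (x v)) N := by
      have e2 : ∀ i ∈ T, c i * (Pool.Agent.W529.ST.mean (F i) (fun w => f (y i w)) N -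
        Pool.Agent.W529.ST.mean K (fun v => f (x v)) N) =
        c i * avg (fun w => f (y i w)) N - c i * avg (fun v => f (x v)) N := by
        intro i _
        rw [mul_sub]
        rfl
      rw [Finset.sum_congr rfl e2, Finset.sum_sub_distrib, ← Finset.sum_mul, hc, one_mul]
    rw [e1, ← neg_sq, neg_sub] at h4
    have e3 : η / (C ^ 2 + 1) * (∑ i ∈ T, |c i|) ^ 2 ≤ η := by
      rw [← hC, div_mul_eq_mul_div, div_le_iff₀ (by positivity)]
      nlinarith
    have e4 : (∑ i ∈ T, ∑ j ∈ T, c i * c j * ((Pool.Agent.TH936.ST.nf K (F i) (F j) : ℝ) - 1)) =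
      ∑ i ∈ T, ∑ j ∈ T, c i * c j * ((numFields K (F i) (F j) : ℝ) - 1) := rfl
    rw [e4] at h4
    linarith
  refine ⟨hA, ?_⟩
  intro μ hy
  have hB : (∀ ε : ℝ, 0 < ε → ∃ T : Finset ι, T.Nonempty ∧
        ∑ i ∈ T, ∑ j ∈ T, ((numFields K (F i) (F j) : ℝ) - 1) ≤ ε * (T.card : ℝ) ^ 2) →
      Equidistributed x μ := by
    intro hT
    -- functions bounded by one
    have h1 : ∀ f : X → ℝ, Continuous f → (∀ t, |f t| ≤ 1) →
        Tendsto (avg fun v => f (x v)) atTop (𝓝 (∫ t, f t ∂μ)) := by
      intro f hf hf1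
      rw [Metric.tendsto_nhds]
      intro ε hε
      obtain ⟨T, hTn, hTs⟩ := hT (ε ^ 2 / 8) (by positivity)
      have hc0 : (0 : ℝ) < T.card := by exact_mod_cast hTn.card_pos
      have h2 := hA T (fun _ => (T.card : ℝ)⁻¹) (by
        rw [Finset.sum_const, nsmul_eq_mul, mul_inv_cancel₀ hc0.ne']) f hf1 (ε ^ 2 / 8)
        (by positivity)
      have h5 : Tendsto (fun N => ∑ i ∈ T, (T.card : ℝ)⁻¹ * avg (fun w => f (y i w)) N) atTop
          (𝓝 (∫ t, f t ∂μ)) := by
        have h6 : Tendsto (fun N => ∑ i ∈ T, (T.card : ℝ)⁻¹ * avg (fun w => f (y i w)) N) atTop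
            (𝓝 (∑ i ∈ T, (T.card : ℝ)⁻¹ * ∫ t, f t ∂μ)) :=
          tendsto_finsetSum _ fun i _ => (hy i f hf).const_mul _
        rwa [← Finset.sum_mul, Finset.sum_const, nsmul_eq_mul, mul_inv_cancel₀ hc0.ne', one_mul]
          at h6
      rw [Metric.tendsto_nhds] at h5
      filter_upwards [h2, h5 (ε / 4) (by positivity)] with N hN hN5
      rw [Real.dist_eq] at hN5 ⊢
      have h3 : (∑ i ∈ T, ∑ j ∈ T, (T.card : ℝ)⁻¹ * (T.card : ℝ)⁻¹ *
          ((numFields K (F i) (F j) : ℝ) - 1)) ≤ ε ^ 2 / 8 := by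
        have e1 : (∑ i ∈ T, ∑ j ∈ T, (T.card : ℝ)⁻¹ * (T.card : ℝ)⁻¹ *
          ((numFields K (F i) (F j) : ℝ) - 1)) = (∑ i ∈ T, ∑ j ∈ T,
          ((numFields K (F i) (F j) : ℝ) - 1)) / (T.card : ℝ) ^ 2 := by
          rw [Finset.sum_div]
          refine Finset.sum_congr rfl fun i _ => ?_
          rw [Finset.sum_div]
          refine Finset.sum_congr rfl fun j _ => ?_
          field_simp
        rw [e1, div_le_iff₀ (by positivity)]
        exact hTs
      have h4 : (avg (fun v => f (x v)) N -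
          ∑ i ∈ T, (T.card : ℝ)⁻¹ * avg (fun w => f (y i w)) N) ^ 2 ≤ (ε / 2) ^ 2 := by
        linarith
      have h7 := abs_le_of_sq_le_sq h4 (by positivity)
      calc |avg (fun v => f (x v)) N - ∫ t, f t ∂μ| ≤ |avg (fun v => f (x v)) N -
            ∑ i ∈ T, (T.card : ℝ)⁻¹ * avg (fun w => f (y i w)) N| +
            |(∑ i ∈ T, (T.card : ℝ)⁻¹ * avg (fun w => f (y i w)) N) - ∫ t, f t ∂μ| :=
            abs_sub_le _ _ _
        _ < ε := by linarith
    -- all continuous functions
    intro f hf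
    obtain ⟨M, hM⟩ := (isCompact_univ (X := X)).exists_bound_of_continuousOn hf.continuousOn
    set M' : ℝ := max M 0 + 1 with hM'
    have hM0 : 0 < M' := by
      have : 0 ≤ max M 0 := le_max_right _ _
      linarith
    have h2 := h1 (fun t => M'⁻¹ * f t) (continuous_const.mul hf) (fun t => by
      rw [abs_mul, abs_of_pos (inv_pos.2 hM0), inv_mul_le_iff₀ hM0, mul_one]
      have h3 := hM t (Set.mem_univ t)
      rw [Real.norm_eq_abs] at h3
      have : M ≤ max M 0 := le_max_left _ _
      linarith)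
    have h3 := h2.const_mul M'
    have e1 : M' * ∫ t, M'⁻¹ * f t ∂μ = ∫ t, f t ∂μ := by
      rw [integral_const_mul, ← mul_assoc, mul_inv_cancel₀ hM0.ne', one_mul]
    rw [e1] at h3
    refine h3.congr fun N => ?_
    obtain ⟨t, _, _, hmean⟩ := Pool.Agent.W529.ST.mean_def (F := K) (fun _ => 0) N
    have e2 : avg (fun v => M'⁻¹ * f (x v)) N = (∑ v ∈ t, M'⁻¹ * f (x v)) / (t.card : ℝ) :=
      hmean fun v => M'⁻¹ * f (x v)
    have e3 : avg (fun v => f (x v)) N = (∑ v ∈ t, f (x v)) / (t.card : ℝ) :=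
      hmean fun v => f (x v)
    rw [e2, e3, ← Finset.mul_sum, mul_div_assoc, ← mul_assoc, mul_inv_cancel₀ hM0.ne', one_mul]
  refine ⟨hB, ?_⟩
  intro b hinf h1 h2
  apply hB
  intro ε hε
  obtain ⟨n, hn⟩ := exists_nat_gt ((b : ℝ) / ε)
  obtain ⟨T, hT⟩ := Infinite.exists_subset_card_eq ι (n + 1)
  refine ⟨T, Finset.card_pos.1 (by omega), ?_⟩
  have e1 : ∑ i ∈ T, ∑ j ∈ T, ((numFields K (F i) (F j) : ℝ) - 1) ≤ ∑ i ∈ T, (b : ℝ) := by
    refine Finset.sum_le_sum fun i hi => ?_
    rw [Finset.sum_eq_single i]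
    · have : (numFields K (F i) (F i) : ℝ) ≤ b := by exact_mod_cast h2 i
      linarith
    · intro j _ hj
      rw [h1 i j (Ne.symm hj)]
      simp
    · intro h
      exact absurd hi h
  refine e1.trans ?_
  rw [Finset.sum_const, nsmul_eq_mul, hT]
  rw [div_lt_iff₀ hε] at hn
  push_cast
  have hn0 : (0 : ℝ) ≤ n := Nat.cast_nonneg n
  nlinarith

/-- **Frobenius classes over a number field and over its finite extensions.**  For every compact metric
space `X` and every `δ > 0` there is a number `B` such that in all families of finite extensions `F_i` of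
number fields `K` with `F_i ⊗ F_j` fields for `i ≠ j` and `F_i ⊗ F_i` products of at most `b + 1` fields,
all but at most `B b` members have at the scale `N` a distribution `δ`-close to that over `K`.  In the
other direction, the distribution over `K` is a combination of those over the `F_i`, up to the square
root of a quadratic form, and equidistribution over all members of an infinite family as above implies
equidistribution over `K`. -/
theorem result :
    (∀ (X : Type) [MetricSpace X] [CompactSpace X] [MeasurableSpace X] [BorelSpace X] (δ : ℝ),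
      0 < δ → ∃ B : ℕ, FewExceptions X δ B) ∧
    (∀ (K : Type) [Field K] [NumberField K] (X : Type) [TopologicalSpace X] [CompactSpace X]
      [MeasurableSpace X], Descent K X) :=
  ⟨fun X _ _ _ _ _ hδ => few X hδ, fun K _ _ X _ _ _ => descent K X⟩

end Pool.Agent.Results.MP_6dc561_nt.ManyExtensions
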